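import Pool.Agent.Helper93.PL.St
import Pool.Agent.Helper79.PV.M_Rho

set_option autoImplicit false

namespace Pool.Agent.Helper65.PL

open Finset
open Pool.Agent.Helper61.PV
open Pool.Agent.Helper93.PL

/-- the weight of a prime in the `K`-th power of `rho` -/
noncomputable def zK (K p : ℕ) : ℝ := (1 + 1 / ((p : ℝ) - 1)) ^ K - 1

theorem pow_le_lin (K : ℕ) (t : ℝ) (h0 : 0 ≤ t) (h1 : t ≤ 1) :
    (1 + t) ^ K ≤ 1 + (2 ^ K - 1) * t := by
  induction K with
  | zero => simp
  | succ K ih =>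
    have hp : (1 : ℝ) ≤ 2 ^ K := one_le_pow₀ (by norm_num)
    have h2 : (2 ^ K - 1) * (t * t) ≤ (2 ^ K - 1) * t := by
      refine mul_le_mul_of_nonneg_left ?_ (by linarith)
      nlinarith
    calc (1 + t) ^ (K + 1) = (1 + t) ^ K * (1 + t) := pow_succ _ _
      _ ≤ (1 + (2 ^ K - 1) * t) * (1 + t) := mul_le_mul_of_nonneg_right ih (by linarith)
      _ = 1 + t + (2 ^ K - 1) * t + (2 ^ K - 1) * (t * t) := by ring
      _ ≤ 1 + (2 ^ (K + 1) - 1) * t := by
        rw [pow_succ]
        linarith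

theorem zK_nonneg (K : ℕ) {p : ℕ} (hp : 2 ≤ p) : 0 ≤ zK K p := by
  unfold zK
  have h2 : (2 : ℝ) ≤ p := by exact_mod_cast hp
  have : 0 ≤ 1 / ((p : ℝ) - 1) := div_nonneg zero_le_one (by linarith)
  have h1 : (1 : ℝ) ≤ (1 + 1 / ((p : ℝ) - 1)) ^ K := one_le_pow₀ (by linarith)
  linarith

theorem zK_le (K : ℕ) {p : ℕ} (hp : 2 ≤ p) : zK K p ≤ 2 ^ K * Pool.Agent.Helper79.PV.aR p := by
  unfold zK Pool.Agent.Helper79.PV.aR
  have h2 : (2 : ℝ) ≤ p := by exact_mod_cast hp
  have h0 : 0 ≤ 1 / ((p : ℝ) - 1) := div_nonneg zero_le_one (by linarith)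
  have h1 : 1 / ((p : ℝ) - 1) ≤ 1 := by
    rw [div_le_one (by linarith)]
    linarith
  have := pow_le_lin K _ h0 h1
  linarith

theorem sum_gen (a : ℕ → ℝ) (P : Finset ℕ) (hP : ∀ p ∈ P, p.Prime) (ha : ∀ p ∈ P, 0 ≤ a p) :
    ∀ J : ℕ, ∑ k ∈ Icc 1 J, ∏ p ∈ P, (1 + if p ∣ k then a p else 0) ≤
      J * ∏ p ∈ P, (1 + a p / p) := by
  induction P using Finset.induction_on with
  | empty =>
    intro J
    simp
  | insert p P hp ih =>
    intro J
    have hpp : p.Prime := hP p (mem_insert_self _ _)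
    have hP' : ∀ q ∈ P, q.Prime := fun q hq => hP q (mem_insert_of_mem hq)
    have ha' : ∀ q ∈ P, 0 ≤ a q := fun q hq => ha q (mem_insert_of_mem hq)
    set G : ℕ → ℝ := fun k => ∏ q ∈ P, (1 + if q ∣ k then a q else 0) with hG
    have hPi : 0 ≤ ∏ q ∈ P, (1 + a q / q) := by
      refine Finset.prod_nonneg fun q hq => ?_
      have := ha' q hq
      positivity
    have hap := ha p (mem_insert_self _ _)
    have hp0 : (0 : ℝ) < p := by exact_mod_cast hpp.pos
    have e1 : ∑ k ∈ Icc 1 J, ∏ q ∈ insert p P, (1 + if q ∣ k then a q else 0) =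
        ∑ k ∈ Icc 1 J, G k + a p * ∑ k ∈ (Icc 1 J).filter (fun k => p ∣ k), G k := by
      rw [Finset.sum_filter, Finset.mul_sum, ← Finset.sum_add_distrib]
      refine Finset.sum_congr rfl fun k _ => ?_
      rw [Finset.prod_insert hp]
      simp only [hG]
      split_ifs
      · ring
      · ring
    have e2 : ∑ k ∈ (Icc 1 J).filter (fun k => p ∣ k), G k = ∑ j ∈ Icc 1 (J / p), G j := by
      symm
      refine Finset.sum_bij (fun j _ => p * j) ?_ ?_ ?_ ?_
      · intro j hj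
        rw [mem_Icc] at hj
        rw [mem_filter, mem_Icc]
        have h3 : j * p ≤ J := (Nat.le_div_iff_mul_le hpp.pos).1 hj.2
        refine ⟨⟨Nat.mul_pos hpp.pos hj.1, by rw [mul_comm]; exact h3⟩, Dvd.intro _ rfl⟩
      · intro i _ j _ hij
        exact Nat.eq_of_mul_eq_mul_left hpp.pos hij
      · intro k hk
        rw [mem_filter, mem_Icc] at hk
        obtain ⟨⟨h1, h2⟩, j, rfl⟩ := hk
        refine ⟨j, ?_, rfl⟩
        rw [mem_Icc]
        refine ⟨Nat.pos_of_mul_pos_left h1, ?_⟩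
        rw [Nat.le_div_iff_mul_le hpp.pos, mul_comm]
        exact h2
      · intro j _
        simp only [hG]
        refine Finset.prod_congr rfl fun q hq => ?_
        have hqp : q ≠ p := by
          rintro rfl
          exact hp hq
        have hiff : q ∣ p * j ↔ q ∣ j := by
          rw [(hP' q hq).dvd_mul]
          constructor
          · rintro (h | h)
            · exact absurd ((Nat.prime_dvd_prime_iff_eq (hP' q hq) hpp).1 h) hqp
            · exact h
          · exact Or.inr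
        simp only [hiff]
    rw [e1, e2, Finset.prod_insert hp]
    have i1 := ih hP' ha' J
    have i2 := ih hP' ha' (J / p)
    have i3 : ((J / p : ℕ) : ℝ) ≤ (J : ℝ) / p := Nat.cast_div_le
    calc ∑ k ∈ Icc 1 J, G k + a p * ∑ j ∈ Icc 1 (J / p), G j
        ≤ J * ∏ q ∈ P, (1 + a q / q) + a p * ((J / p) * ∏ q ∈ P, (1 + a q / q)) := by
          refine add_le_add i1 (mul_le_mul_of_nonneg_left (i2.trans ?_) hap)
          exact mul_le_mul_of_nonneg_right i3 hPi
      _ = J * ((1 + a p / p) * ∏ q ∈ P, (1 + a q / q)) := by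
          field_simp

theorem exp_le_two {t : ℝ} (h0 : 0 ≤ t) (h1 : t ≤ 1) : Real.exp t ≤ 1 + 2 * t := by
  have h := Real.abs_exp_sub_one_sub_id_le (x := t) (by rw [abs_of_nonneg h0]; exact h1)
  have h2 := (abs_le.1 h).2
  nlinarith

theorem hRh1 : StRh1 := by
  intro K w M hw
  have hK1 : 1 ≤ 2 ^ K := Nat.one_le_two_pow
  have hw1 : 1 ≤ w := hK1.trans hw
  have hwR : (0 : ℝ) < w := by exact_mod_cast hw1
  set P : Finset ℕ := (Ioc w M).filter Nat.Prime with hP
  have hPp : ∀ p ∈ P, p.Prime := fun p hp => (mem_filter.1 hp).2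
  have hterm : ∀ h ∈ Icc 1 M, rho w h ^ K = ∏ p ∈ P, (1 + if p ∣ h then zK K p else 0) := by
    intro h hh
    rw [mem_Icc] at hh
    have hs : h.primeFactors.filter (fun p => w < p) = P.filter (fun p => p ∣ h) := by
      ext p
      simp only [hP, mem_filter, mem_Ioc, Nat.mem_primeFactors]
      constructor
      · rintro ⟨⟨h1, h2, h3⟩, h4⟩
        exact ⟨⟨⟨h4, (Nat.le_of_dvd (by omega) h2).trans hh.2⟩, h1⟩, h2⟩
      · rintro ⟨⟨⟨h1, h2⟩, h3⟩, h4⟩
        exact ⟨⟨h3, h4, by omega⟩, h1⟩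
    unfold rho
    rw [hs, ← Finset.prod_pow, Finset.prod_filter]
    refine Finset.prod_congr rfl fun p _ => ?_
    unfold zK
    split_ifs
    · ring
    · ring
  have h1 : ∑ h ∈ Icc 1 M, (rho w h ^ K - 1) =
      ∑ h ∈ Icc 1 M, ∏ p ∈ P, (1 + if p ∣ h then zK K p else 0) - M := by
    rw [Finset.sum_sub_distrib, Finset.sum_congr rfl hterm]
    simp
  have h2 := sum_gen (zK K) P hPp (fun p hp => zK_nonneg K (hPp p hp).two_le) M
  have h3 : ∏ p ∈ P, (1 + zK K p / p) ≤ Real.exp (2 ^ K / (w : ℝ)) := by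
    have s1 : ∏ p ∈ P, (1 + zK K p / p) ≤ ∏ p ∈ P, Real.exp (zK K p / p) := by
      refine Finset.prod_le_prod ?_ ?_
      · intro p hp
        have := zK_nonneg K (hPp p hp).two_le
        positivity
      · intro p _
        have := Real.add_one_le_exp (zK K p / p)
        linarith
    refine s1.trans ?_
    rw [← Real.exp_sum]
    refine Real.exp_le_exp.2 ?_
    have s2 : ∑ p ∈ P, zK K p / p ≤ ∑ p ∈ Ioc w M, 2 ^ K * (Pool.Agent.Helper79.PV.aR p / p) := by
      have s3 : ∑ p ∈ P, zK K p / p ≤ ∑ p ∈ P, 2 ^ K * (Pool.Agent.Helper79.PV.aR p / p) := by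
        refine Finset.sum_le_sum fun p hp => ?_
        have h4 := zK_le K (hPp p hp).two_le
        rw [← mul_div_assoc]
        exact div_le_div_of_nonneg_right h4 (Nat.cast_nonneg p)
      refine s3.trans ?_
      refine Finset.sum_le_sum_of_subset_of_nonneg (filter_subset _ _) ?_
      intro p hp _
      rw [mem_Ioc] at hp
      have := Pool.Agent.Helper79.PV.aR_nonneg (p := p) (by omega)
      positivity
    refine s2.trans ?_
    rw [← Finset.mul_sum, div_eq_mul_one_div]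
    refine mul_le_mul_of_nonneg_left ?_ (by positivity)
    rcases le_or_gt w M with hwM | hwM
    · obtain ⟨t, rfl⟩ := Nat.exists_eq_add_of_le hwM
      rw [Pool.Agent.Helper79.PV.tele_Rho w hw1 t]
      have : 0 ≤ 1 / ((w + t : ℕ) : ℝ) := by positivity
      linarith
    · rw [Finset.Ioc_eq_empty (by omega), Finset.sum_empty]
      positivity
  have h5 : (2 : ℝ) ^ K / w ≤ 1 := by
    rw [div_le_one hwR]
    exact_mod_cast hw
  have h6 := exp_le_two (t := 2 ^ K / (w : ℝ)) (by positivity) h5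
  have hM0 : (0 : ℝ) ≤ M := Nat.cast_nonneg M
  rw [h1]
  calc ∑ h ∈ Icc 1 M, ∏ p ∈ P, (1 + if p ∣ h then zK K p else 0) - M
      ≤ M * (1 + 2 * (2 ^ K / (w : ℝ))) - M := by
        have := h2.trans (mul_le_mul_of_nonneg_left (h3.trans h6) hM0)
        linarith
    _ = 2 ^ (K + 1) / (w : ℝ) * M := by
        rw [pow_succ]
        ring

end Pool.Agent.Helper65.PL
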